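import Mathlib

/-!
# MP_721462_co : the identity `f(H,p,1) = C(n,p) - b(H,p)` fails (already for `r = 4`, `p = 2`)
-/

namespace Pool.Agent.Results.MP_721462_co.TreeCE

open Filter

/-! ### Definitions of the problem -/

section Defs

variable {V : Type} [Fintype V] [DecidableEq V]

/-- `H` is an `r`-uniform hypergraph on `V`. -/
def Uniform (r : ℕ) (H : Finset (Finset V)) : Prop := ∀ E ∈ H, E.card = r

/-- An orientation: every edge gets a bijection onto the positions `Fin r`. -/
def Orientation (r : ℕ) (H : Finset (Finset V)) : Type :=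
  ∀ E : {E // E ∈ H}, {v // v ∈ E.1} ≃ Fin r

/-- The positions occupied by the elements of `A` in the edge `E`. -/
def pos {r : ℕ} {H : Finset (Finset V)} (D : Orientation r H) (E : {E // E ∈ H})
    (A : Finset V) : Finset (Fin r) :=
  Finset.univ.filter fun t => (((D E).symm t : {v // v ∈ E.1}) : V) ∈ A

/-- `d_P(A)`: the number of edges `E ⊇ A` in which `A` occupies exactly the positions `P`. -/
def deg {r : ℕ} {H : Finset (Finset V)} (D : Orientation r H) (P : Finset (Fin r))
    (A : Finset V) : ℕ :=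
  (H.attach.filter fun E => A ⊆ E.1 ∧ pos D E A = P).card

/-- `f(D,p,k)`: the number of `p`-sets `A` with `d_P(A) ≥ k` for all `p`-sets `P` of positions. -/
def fD {r : ℕ} {H : Finset (Finset V)} (D : Orientation r H) (p k : ℕ) : ℕ :=
  ((Finset.powersetCard p (Finset.univ : Finset V)).filter fun A =>
    ∀ P ∈ Finset.powersetCard p (Finset.univ : Finset (Fin r)), k ≤ deg D P A).card

/-- `f(H,p,k)`: the minimum of `f(D,p,k)` over all orientations. -/
noncomputable def f (r : ℕ) (H : Finset (Finset V)) (p k : ℕ) : ℕ :=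
  sInf {m | ∃ D : Orientation r H, fD D p k = m}

/-- `B` is a family of `p`-sets that can be coloured with at most `C(r,p)` colours such that no
edge all of whose `p`-subsets lie in `B` is `p`-monochromatic. -/
def Good (r : ℕ) (H : Finset (Finset V)) (p : ℕ) (B : Finset (Finset V)) : Prop :=
  (∀ A ∈ B, A.card = p) ∧
  ∃ col : Finset V → Fin (r.choose p), ∀ E ∈ H, (∀ A ∈ Finset.powersetCard p E, A ∈ B) →
    ¬ ∃ c, ∀ A ∈ Finset.powersetCard p E, col A = c

/-- `b(H,p)`: the largest size of such a family. -/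
noncomputable def b (r : ℕ) (H : Finset (Finset V)) (p : ℕ) : ℕ :=
  sSup {m | ∃ B : Finset (Finset V), Good r H p B ∧ B.card = m}

end Defs

/-! ### Trees and ultrafilters -/

/-- Words of length `d`. -/
def T : ℕ → Type
  | 0 => Unit
  | d + 1 => ℕ × T d

instance encT : (d : ℕ) → Encodable (T d)
  | 0 => inferInstanceAs (Encodable Unit)
  | d + 1 => by
      haveI := encT d
      exact inferInstanceAs (Encodable (ℕ × T d))

/-- `u` and `v` first differ at level `x`. -/
def dif : {d : ℕ} → T d → T d → ℕ → Prop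
  | 0, _, _, _ => False
  | _ + 1, u, v, 0 => u.1 ≠ v.1
  | _ + 1, u, v, x + 1 => u.1 = v.1 ∧ dif u.2 v.2 x

/-- The product ultrafilter, on predicates. -/
def W : (d : ℕ) → (T d → Prop) → Prop
  | 0, p => p ()
  | d + 1, p => ∀ᶠ a : ℕ in (hyperfilter ℕ : Filter ℕ), W d (fun u => p (a, u))

theorem W_and : ∀ (d : ℕ) (p q : T d → Prop), W d p → W d q → W d (fun u => p u ∧ q u)
  | 0, _, _, hp, hq => ⟨hp, hq⟩
  | d + 1, p, q, hp, hq => by
      have hp' : ∀ᶠ a : ℕ in (hyperfilter ℕ : Filter ℕ), W d (fun u => p (a, u)) := hp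
      have hq' : ∀ᶠ a : ℕ in (hyperfilter ℕ : Filter ℕ), W d (fun u => q (a, u)) := hq
      exact (hp'.and hq').mono fun a h => W_and d _ _ h.1 h.2

theorem W_mono : ∀ (d : ℕ) (p q : T d → Prop), (∀ u, p u → q u) → W d p → W d q
  | 0, _, _, h, hp => h _ hp
  | d + 1, p, q, h, hp => by
      have hp' : ∀ᶠ a : ℕ in (hyperfilter ℕ : Filter ℕ), W d (fun u => p (a, u)) := hp
      exact hp'.mono fun a ha => W_mono d _ _ (fun u hu => h _ hu) ha

theorem W_ex : ∀ (d : ℕ) (p : T d → Prop), W d p → ∃ u, p u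
  | 0, _, hp => ⟨(), hp⟩
  | d + 1, p, hp => by
      have hp' : ∀ᶠ a : ℕ in (hyperfilter ℕ : Filter ℕ), W d (fun u => p (a, u)) := hp
      obtain ⟨a, ha⟩ := hp'.exists
      obtain ⟨u, hu⟩ := W_ex d _ ha
      exact ⟨_, hu⟩

theorem ult_lim {K : Type} [Finite K] (h : ℕ → K) :
    ∃ k, ∀ᶠ a : ℕ in (hyperfilter ℕ : Filter ℕ), h a = k := by
  classical
  have : ∀ᶠ a : ℕ in (hyperfilter ℕ : Filter ℕ), ∃ k, h a = k :=
    Filter.Eventually.of_forall fun a => ⟨_, rfl⟩
  rwa [Ultrafilter.eventually_exists_iff] at this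

theorem W_lim {K : Type} [Finite K] : ∀ (d : ℕ) (h : T d → K), ∃ k, W d (fun u => h u = k)
  | 0, h => ⟨h (), rfl⟩
  | d + 1, h => by
      choose k hk using fun a : ℕ => W_lim d (fun u => h (a, u))
      obtain ⟨k0, h0⟩ := ult_lim k
      refine ⟨k0, ?_⟩
      show ∀ᶠ a : ℕ in (hyperfilter ℕ : Filter ℕ), W d (fun u => h (a, u) = k0)
      exact h0.mono fun a ha => ha ▸ hk a

/-- `g` records the limit values of `c` level by level. -/
def IsLim {K : Type} : (d : ℕ) → (T d → T d → K) → (Fin d → K) → Prop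
  | 0, _, _ => True
  | d + 1, c, g =>
      W (d + 1) (fun u => W (d + 1) fun v => c u v = g 0) ∧
      ∀ᶠ a : ℕ in (hyperfilter ℕ : Filter ℕ),
        IsLim d (fun u v => c (a, u) (a, v)) (fun x => g x.succ)

theorem exists_isLim {K : Type} [Finite K] : ∀ (d : ℕ) (c : T d → T d → K), ∃ g, IsLim d c g
  | 0, _ => ⟨Fin.elim0, trivial⟩
  | d + 1, c => by
      choose k hk using fun u : T (d + 1) => W_lim (d + 1) (fun v => c u v)
      obtain ⟨k0, h0⟩ := W_lim (d + 1) k
      choose g hg using fun a : ℕ =>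
        exists_isLim d (fun u v : T d => c ((a, u) : T (d + 1)) ((a, v) : T (d + 1)))
      obtain ⟨g0, hg0⟩ := ult_lim g
      refine ⟨Fin.cons k0 g0, ?_, ?_⟩
      · refine W_mono _ _ _ (fun u hu => ?_) h0
        have h1 := hk u
        rw [hu] at h1
        simpa using h1
      · refine hg0.mono fun a ha => ?_
        have h1 := hg a
        rw [ha] at h1
        simpa using h1

theorem pair {K : Type} : ∀ (d : ℕ) (c : T d → T d → K) (g : Fin d → K), IsLim d c g →
    ∀ (x : Fin d) (G : T d → Prop), W d G →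
      ∃ u v, dif u v x ∧ c u v = g x ∧ G u ∧ G v
  | 0, _, _, _ => fun x => x.elim0
  | d + 1, c, g, hg => fun x => by
      obtain ⟨h0, h1⟩ := hg
      refine Fin.cases ?_ (fun x' => ?_) x
      · intro G hG
        obtain ⟨u, hu1, hu2⟩ := W_ex _ _ (W_and _ _ _ h0 hG)
        have h2 : W (d + 1) (fun v => v.1 ≠ u.1) := by
          show ∀ᶠ a : ℕ in (hyperfilter ℕ : Filter ℕ), W d (fun _ => a ≠ u.1)
          have h3 : ∀ᶠ a : ℕ in (hyperfilter ℕ : Filter ℕ), a ≠ u.1 := by
            have := (Set.finite_singleton u.1).compl_mem_hyperfilter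
            exact this
          refine h3.mono fun a ha => ?_
          have : ∀ (e : ℕ) (q : Prop), q → W e (fun _ => q) := by
            intro e q hq
            induction e with
            | zero => exact hq
            | succ e ih => exact Filter.Eventually.of_forall fun _ => ih
          exact this _ _ ha
        obtain ⟨v, ⟨hv1, hv2⟩, hv3⟩ := W_ex _ _ (W_and _ _ _ (W_and _ _ _ hu1 hG) h2)
        exact ⟨u, v, hv3.symm, hv1, hu2, hv2⟩
      · intro G hG
        have hG' : ∀ᶠ a : ℕ in (hyperfilter ℕ : Filter ℕ), W d (fun u => G (a, u)) := hG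
        obtain ⟨a, ha1, ha2⟩ := (h1.and hG').exists
        obtain ⟨u, v, huv, hc, hu, hv⟩ := pair d _ _ ha1 x' _ ha2
        exact ⟨(a, u), (a, v), ⟨rfl, huv⟩, hc, hu, hv⟩

/-- The four-point pattern with inner level `x` and outer level `y < x`. -/
theorem pattern {K : Type} : ∀ (d : ℕ) (c : T d → T d → K) (g : Fin d → K), IsLim d c g →
    ∀ (y x : Fin d), y < x →
      ∃ u v w z, dif u v x ∧ dif w z x ∧ dif u w y ∧ dif u z y ∧ dif v w y ∧ dif v z y ∧
        c u v = g x ∧ c w z = g x ∧ c u w = g y ∧ c u z = g y ∧ c v w = g y ∧ c v z = g y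
  | 0, _, _, _ => fun x => x.elim0
  | d + 1, c, g, hg => fun y x => by
      obtain ⟨h0, h1⟩ := hg
      refine Fin.cases ?_ (fun y' => ?_) y
      · refine Fin.cases ?_ (fun x' => ?_) x
        · intro h
          exact absurd h (lt_irrefl _)
        · intro _
          have h0' : ∀ᶠ a : ℕ in (hyperfilter ℕ : Filter ℕ),
            W d (fun u => W (d + 1) fun v => c (a, u) v = g 0) := h0
          obtain ⟨a, ha1, ha2⟩ := (h1.and h0').exists
          obtain ⟨u, v, huv, hc, hu, hv⟩ := pair d _ _ ha1 x' _ ha2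
          have h2 : ∀ᶠ b : ℕ in (hyperfilter ℕ : Filter ℕ),
            W d (fun w => c (a, u) (b, w) = g 0 ∧ c (a, v) (b, w) = g 0) :=
            W_and (d + 1) _ _ hu hv
          have h3 : ∀ᶠ b : ℕ in (hyperfilter ℕ : Filter ℕ), a ≠ b := by
            have := (Set.finite_singleton a).compl_mem_hyperfilter
            refine Filter.mem_of_superset this ?_
            intro b hb h
            exact hb h.symm
          obtain ⟨b, ⟨hb1, hb2⟩, hb3⟩ := ((h1.and h2).and h3).exists
          obtain ⟨w, z, hwz, hc', hw, hz⟩ := pair d _ _ hb1 x' _ hb2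
          exact ⟨(a, u), (a, v), (b, w), (b, z), ⟨rfl, huv⟩, ⟨rfl, hwz⟩, hb3, hb3, hb3, hb3,
            hc, hc', hw.1, hz.1, hw.2, hz.2⟩
      · refine Fin.cases ?_ (fun x' => ?_) x
        · intro h
          exact absurd h (by simp)
        · intro hyx
          obtain ⟨a, ha⟩ := h1.exists
          obtain ⟨u, v, w, z, e1, e2, e3, e4, e5, e6, k1, k2, k3, k4, k5, k6⟩ :=
            pattern d _ _ ha y' x' (by simpa using hyx)
          exact ⟨(a, u), (a, v), (a, w), (a, z), ⟨rfl, e1⟩, ⟨rfl, e2⟩, ⟨rfl, e3⟩, ⟨rfl, e4⟩,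
            ⟨rfl, e5⟩, ⟨rfl, e6⟩, k1, k2, k3, k4, k5, k6⟩

/-! ### The first level of difference as a function -/

/-- The first level at which two words differ (`0` if they are equal). -/
def lev : {d : ℕ} → T (d + 1) → T (d + 1) → Fin (d + 1)
  | 0, _, _ => 0
  | d + 1, u, v => if u.1 = v.1 then (lev (d := d) u.2 v.2).succ else 0

theorem lev_eq : ∀ {d : ℕ} (u v : T (d + 1)) (x : Fin (d + 1)), dif u v x → lev u v = x
  | 0, _, _, x, _ => by
      have := x.2
      exact Fin.ext (by simp only [lev]; omega)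
  | d + 1, u, v, x, h => by
      revert h
      refine Fin.cases ?_ (fun x' => ?_) x
      · intro h
        have h' : u.1 ≠ v.1 := h
        simp [lev, h']
      · intro h
        have h' : u.1 = v.1 ∧ dif u.2 v.2 (x' : ℕ) := h
        simp [lev, h'.1, lev_eq u.2 v.2 x' h'.2]

theorem lev_symm : ∀ {d : ℕ} (u v : T (d + 1)), lev u v = lev v u
  | 0, _, _ => rfl
  | d + 1, u, v => by
      simp only [lev, lev_symm u.2 v.2]
      by_cases h : u.1 = v.1
      · simp [h]
      · rw [if_neg h, if_neg (Ne.symm h)]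

/-- The level colouring of pairs of natural numbers, through a fixed decoding. -/
noncomputable def dec (i : ℕ) : T 6 := ((encT 6).decode i).getD (0, 0, 0, 0, 0, 0, ())

noncomputable def enc (u : T 6) : ℕ := (encT 6).encode u

theorem dec_enc (u : T 6) : dec (enc u) = u := by
  unfold dec enc
  rw [(encT 6).encodek u]
  rfl

theorem enc_inj {u v : T 6} (h : u ≠ v) : enc u ≠ enc v := by
  intro e
  apply h
  rw [← dec_enc u, ← dec_enc v, e]

noncomputable def chi (i j : ℕ) : Fin 6 := lev (dec i) (dec j)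

theorem chi_symm (i j : ℕ) : chi i j = chi j i := lev_symm _ _

theorem chi_enc (u v : T 6) (x : Fin 6) (h : dif u v x) : chi (enc u) (enc v) = x := by
  unfold chi
  rw [dec_enc, dec_enc]
  exact lev_eq u v x h

theorem dif_ne : ∀ {d : ℕ} (u v : T d) (x : ℕ), dif u v x → u ≠ v
  | 0, _, _, _, h => h.elim
  | d + 1, u, v, 0, h => fun e => h (by rw [e])
  | d + 1, u, v, x + 1, h => fun e => dif_ne u.2 v.2 x h.2 (by rw [e])

/-! ### The hypergraph -/

open Classical in
/-- All `4`-subsets of `Fin N` that are not monochromatic for the level colouring. -/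
noncomputable def HN (N : ℕ) : Finset (Finset (Fin N)) :=
  (Finset.powersetCard 4 (Finset.univ : Finset (Fin N))).filter fun E =>
    ¬ ∃ k, ∀ i ∈ E, ∀ j ∈ E, i ≠ j → chi i j = k

theorem HN_unif (N : ℕ) : Uniform 4 (HN N) := by
  intro E hE
  unfold HN at hE
  rw [Finset.mem_filter, Finset.mem_powersetCard] at hE
  exact hE.1.2

open Classical in
/-- The colour of a set of vertices: the level of its smallest and largest elements. -/
noncomputable def colr (N : ℕ) (A : Finset (Fin N)) : Fin 6 :=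
  if h : A.Nonempty then chi (A.min' h : Fin N) (A.max' h : Fin N) else 0

theorem colr_pair (N : ℕ) (i j : Fin N) (h : i < j) : colr N {i, j} = chi i j := by
  unfold colr
  have hne : ({i, j} : Finset (Fin N)).Nonempty := ⟨i, by simp⟩
  rw [dif_pos hne]
  have h1 : ({i, j} : Finset (Fin N)).min' hne = i := by
    apply le_antisymm
    · exact Finset.min'_le _ _ (by simp)
    · apply Finset.le_min'
      intro y hy
      simp only [Finset.mem_insert, Finset.mem_singleton] at hy
      rcases hy with rfl | rfl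
      · exact le_refl _
      · exact h.le
  have h2 : ({i, j} : Finset (Fin N)).max' hne = j := by
    apply le_antisymm
    · apply Finset.max'_le
      intro y hy
      simp only [Finset.mem_insert, Finset.mem_singleton] at hy
      rcases hy with rfl | rfl
      · exact h.le
      · exact le_refl _
    · exact Finset.le_max' _ _ (by simp)
  rw [h1, h2]

theorem good_all (N : ℕ) :
    Good 4 (HN N) 2 (Finset.powersetCard 2 (Finset.univ : Finset (Fin N))) := by
  refine ⟨fun A hA => (Finset.mem_powersetCard.1 hA).2, fun A => colr N A, ?_⟩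
  rintro E hE - ⟨c, hc⟩
  unfold HN at hE
  rw [Finset.mem_filter] at hE
  apply hE.2
  refine ⟨c, ?_⟩
  have key : ∀ i ∈ E, ∀ j ∈ E, i < j → chi i j = c := by
    intro i hi j hj hij
    have h1 : ({i, j} : Finset (Fin N)) ∈ Finset.powersetCard 2 E := by
      rw [Finset.mem_powersetCard]
      refine ⟨?_, Finset.card_pair hij.ne⟩
      intro y hy
      simp only [Finset.mem_insert, Finset.mem_singleton] at hy
      rcases hy with rfl | rfl
      · exact hi
      · exact hj
    rw [← colr_pair N i j hij]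
    exact hc _ h1
  intro i hi j hj hij
  rcases lt_or_gt_of_ne hij with h | h
  · exact key i hi j hj h
  · rw [chi_symm]
    exact key j hj i hi h

theorem b_le (N : ℕ) (H : Finset (Finset (Fin N))) (r p : ℕ) :
    ∀ m ∈ {m | ∃ B : Finset (Finset (Fin N)), Good r H p B ∧ B.card = m}, m ≤ N.choose p := by
  rintro m ⟨B, hB, rfl⟩
  have h1 : B ⊆ Finset.powersetCard p (Finset.univ : Finset (Fin N)) := by
    intro A hA
    rw [Finset.mem_powersetCard]
    exact ⟨Finset.subset_univ _, hB.1 A hA⟩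
  have h2 := Finset.card_le_card h1
  rwa [Finset.card_powersetCard, Finset.card_univ, Fintype.card_fin] at h2

theorem b_HN (N : ℕ) : b 4 (HN N) 2 = N.choose 2 := by
  unfold b
  apply le_antisymm
  · exact csSup_le ⟨_, ⟨_, good_all N, rfl⟩⟩ (b_le N _ 4 2)
  · refine le_csSup ⟨_, b_le N _ 4 2⟩ ⟨_, good_all N, ?_⟩
    rw [Finset.card_powersetCard, Finset.card_univ, Fintype.card_fin]

theorem orient_exists {N : ℕ} {r : ℕ} {H : Finset (Finset (Fin N))} (hH : Uniform r H) :
    Nonempty (Orientation r H) := by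
  refine ⟨fun E => ?_⟩
  refine Fintype.equivFinOfCardEq ?_
  rw [Fintype.card_coe]
  exact hH E.1 E.2

/-- If `f = 0`, some orientation misses a set of positions for every pair. -/
theorem missing {N : ℕ} (h : f 4 (HN N) 2 1 = 0) :
    ∃ D : Orientation 4 (HN N), ∃ c : Finset (Fin N) → Finset (Fin 4),
      ∀ A : Finset (Fin N), A.card = 2 → (c A).card = 2 ∧
        ∀ E : {E // E ∈ HN N}, A ⊆ E.1 → pos D E A ≠ c A := by
  have hne : {m | ∃ D : Orientation 4 (HN N), fD D 2 1 = m}.Nonempty := by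
    obtain ⟨D⟩ := orient_exists (HN_unif N)
    exact ⟨_, D, rfl⟩
  have h0 := Nat.sInf_mem hne
  have h0' : sInf {m | ∃ D : Orientation 4 (HN N), fD D 2 1 = m} = 0 := h
  rw [h0'] at h0
  obtain ⟨D, hD⟩ := h0
  refine ⟨D, ?_⟩
  have key : ∀ A : Finset (Fin N), ∃ P : Finset (Fin 4), A.card = 2 → P.card = 2 ∧
      ∀ E : {E // E ∈ HN N}, A ⊆ E.1 → pos D E A ≠ P := by
    intro A
    by_cases hA : A.card = 2
    · unfold fD at hD
      rw [Finset.card_eq_zero, Finset.filter_eq_empty_iff] at hD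
      have h1 := hD (Finset.mem_powersetCard.2 ⟨Finset.subset_univ A, hA⟩)
      push Not at h1
      obtain ⟨P, hP, hd⟩ := h1
      refine ⟨P, fun _ => ⟨(Finset.mem_powersetCard.1 hP).2, ?_⟩⟩
      intro E hAE he
      have h2 : deg D P A = 0 := by omega
      unfold deg at h2
      rw [Finset.card_eq_zero, Finset.filter_eq_empty_iff] at h2
      exact h2 (Finset.mem_attach _ E) ⟨hAE, he⟩
    · exact ⟨∅, fun h => absurd h hA⟩
  choose c hc using key
  exact ⟨c, fun A hA => hc A hA⟩

/-- One of the six pairs occupies the forbidden positions. -/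
def chk (a b c d : Fin 4) (P Q : Finset (Fin 4)) : Bool :=
  decide (({a, b} : Finset (Fin 4)) = P) || decide (({c, d} : Finset (Fin 4)) = P) ||
  decide (({a, c} : Finset (Fin 4)) = Q) || decide (({a, d} : Finset (Fin 4)) = Q) ||
  decide (({b, c} : Finset (Fin 4)) = Q) || decide (({b, d} : Finset (Fin 4)) = Q)

def dst (a b c d : Fin 4) : Bool :=
  a != b && a != c && a != d && b != c && b != d && c != d

theorem chk_all : ∀ a b c d : Fin 4, dst a b c d = true →
    ∀ P ∈ Finset.powersetCard 2 (Finset.univ : Finset (Fin 4)),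
      chk a b c d P P = true ∧ chk a b c d P Pᶜ = true := by
  decide +kernel

theorem perm_check (s : Fin 4 → Fin 4) (hs : Function.Injective s)
    (P : Finset (Fin 4)) (hP : P ∈ Finset.powersetCard 2 (Finset.univ : Finset (Fin 4)))
    (Q : Finset (Fin 4)) (hQ : Q = P ∨ Q = Pᶜ)
    (h1 : ({s 0, s 1} : Finset (Fin 4)) ≠ P) (h2 : ({s 2, s 3} : Finset (Fin 4)) ≠ P)
    (h3 : ({s 0, s 2} : Finset (Fin 4)) ≠ Q) (h4 : ({s 0, s 3} : Finset (Fin 4)) ≠ Q)
    (h5 : ({s 1, s 2} : Finset (Fin 4)) ≠ Q) (h6 : ({s 1, s 3} : Finset (Fin 4)) ≠ Q) :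
    False := by
  have hd : dst (s 0) (s 1) (s 2) (s 3) = true := by
    have a1 : s 0 ≠ s 1 := hs.ne (by decide)
    have a2 : s 0 ≠ s 2 := hs.ne (by decide)
    have a3 : s 0 ≠ s 3 := hs.ne (by decide)
    have a4 : s 1 ≠ s 2 := hs.ne (by decide)
    have a5 : s 1 ≠ s 3 := hs.ne (by decide)
    have a6 : s 2 ≠ s 3 := hs.ne (by decide)
    simp [dst, a1, a2, a3, a4, a5, a6]
  have hh := chk_all (s 0) (s 1) (s 2) (s 3) hd P hP
  have hc : chk (s 0) (s 1) (s 2) (s 3) P Q = true := by
    rcases hQ with h | h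
    · rw [h]; exact hh.1
    · rw [h]; exact hh.2
  simp [chk, h1, h2, h3, h4, h5, h6] at hc

/-- The local obstruction on four vertices. -/
theorem local_obs {N : ℕ} (D : Orientation 4 (HN N)) (c : Finset (Fin N) → Finset (Fin 4))
    (hc : ∀ A : Finset (Fin N), A.card = 2 → (c A).card = 2 ∧
        ∀ E : {E // E ∈ HN N}, A ⊆ E.1 → pos D E A ≠ c A)
    (e : Fin 4 → Fin N) (he : Function.Injective e) (x y : Fin 6) (hxy : x ≠ y)
    (k1 : chi (e 0) (e 1) = x) (k2 : chi (e 0) (e 2) = y)
    (P Q : Finset (Fin 4)) (hPQ : Q = P ∨ Q = Pᶜ)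
    (c1 : c {e 0, e 1} = P) (c2 : c {e 2, e 3} = P) (c3 : c {e 0, e 2} = Q)
    (c4 : c {e 0, e 3} = Q) (c5 : c {e 1, e 2} = Q) (c6 : c {e 1, e 3} = Q) : False := by
  classical
  have hE : Finset.image e Finset.univ ∈ HN N := by
    unfold HN
    rw [Finset.mem_filter, Finset.mem_powersetCard]
    refine ⟨⟨Finset.subset_univ _, ?_⟩, ?_⟩
    · rw [Finset.card_image_of_injective _ he]
      simp
    · rintro ⟨k, hk⟩
      have m : ∀ a, e a ∈ Finset.image e Finset.univ := fun a =>
        Finset.mem_image_of_mem _ (Finset.mem_univ _)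
      have h1 := hk (e 0) (m 0) (e 1) (m 1) (he.ne (by decide))
      have h2 := hk (e 0) (m 0) (e 2) (m 2) (he.ne (by decide))
      exact hxy (by rw [← k1, ← k2, h1, h2])
  have m : ∀ a, e a ∈ Finset.image e Finset.univ := fun a =>
    Finset.mem_image_of_mem _ (Finset.mem_univ _)
  let s : Fin 4 → Fin 4 := fun a => D ⟨_, hE⟩ ⟨e a, m a⟩
  have hs : Function.Injective s := by
    intro a a' h
    have h1 := (D ⟨_, hE⟩).injective h
    exact he (congrArg Subtype.val h1)
  have hpos : ∀ a a' : Fin 4, pos D ⟨_, hE⟩ {e a, e a'} = {s a, s a'} := by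
    intro a a'
    ext t
    unfold pos
    simp only [Finset.mem_filter, Finset.mem_univ, true_and, Finset.mem_insert,
      Finset.mem_singleton]
    have h1 : ∀ b : Fin 4, ((((D ⟨_, hE⟩).symm t : {v // v ∈ Finset.image e Finset.univ}) :
        Fin N) = e b ↔ t = s b) := by
      intro b
      constructor
      · intro h
        have h2 : (D ⟨_, hE⟩).symm t = ⟨e b, m b⟩ := Subtype.ext h
        rw [Equiv.symm_apply_eq] at h2
        exact h2
      · rintro rfl
        show (((D ⟨_, hE⟩).symm (D ⟨_, hE⟩ ⟨e b, m b⟩) :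
          {v // v ∈ Finset.image e Finset.univ}) : Fin N) = e b
        rw [Equiv.symm_apply_apply]
    rw [h1, h1]
  have hav : ∀ a a' : Fin 4, a ≠ a' → ({s a, s a'} : Finset (Fin 4)) ≠ c {e a, e a'} := by
    intro a a' hne
    rw [← hpos]
    refine (hc _ (Finset.card_pair (he.ne hne))).2 ⟨_, hE⟩ ?_
    intro y hy
    simp only [Finset.mem_insert, Finset.mem_singleton] at hy
    rcases hy with rfl | rfl
    · exact m _
    · exact m _
  have hP : P ∈ Finset.powersetCard 2 (Finset.univ : Finset (Fin 4)) := by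
    rw [Finset.mem_powersetCard]
    refine ⟨Finset.subset_univ _, ?_⟩
    rw [← c1]
    exact (hc _ (Finset.card_pair (he.ne (by decide)))).1
  exact perm_check s hs P hP Q hPQ (c1 ▸ hav 0 1 (by decide)) (c2 ▸ hav 2 3 (by decide))
    (c3 ▸ hav 0 2 (by decide)) (c4 ▸ hav 0 3 (by decide)) (c5 ▸ hav 1 2 (by decide))
    (c6 ▸ hav 1 3 (by decide))

theorem inj4 {α : Type} (a b c d : α) (h1 : a ≠ b) (h2 : c ≠ d) (h3 : a ≠ c) (h4 : a ≠ d)
    (h5 : b ≠ c) (h6 : b ≠ d) : Function.Injective (![a, b, c, d] : Fin 4 → α) := by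
  intro i j
  fin_cases i <;> fin_cases j <;>
    simp [h1, h2, h3, h4, h5, h6, h1.symm, h2.symm, h3.symm, h4.symm, h5.symm, h6.symm]

theorem local_obs' {N : ℕ} (D : Orientation 4 (HN N)) (c : Finset (Fin N) → Finset (Fin 4))
    (hc : ∀ A : Finset (Fin N), A.card = 2 → (c A).card = 2 ∧
        ∀ E : {E // E ∈ HN N}, A ⊆ E.1 → pos D E A ≠ c A)
    (u v w z : Fin N) (h1 : u ≠ v) (h2 : w ≠ z) (h3 : u ≠ w) (h4 : u ≠ z)
    (h5 : v ≠ w) (h6 : v ≠ z) (x y : Fin 6) (hxy : x ≠ y)
    (k1 : chi u v = x) (k2 : chi u w = y)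
    (P Q : Finset (Fin 4)) (hPQ : Q = P ∨ Q = Pᶜ)
    (c1 : c {u, v} = P) (c2 : c {w, z} = P) (c3 : c {u, w} = Q)
    (c4 : c {u, z} = Q) (c5 : c {v, w} = Q) (c6 : c {v, z} = Q) : False :=
  local_obs D c hc ![u, v, w, z] (inj4 u v w z h1 h2 h3 h4 h5 h6) x y hxy k1 k2 P Q hPQ
    c1 c2 c3 c4 c5 c6

/-! ### The contradiction in the limit -/

theorem ev_gt (i : ℕ) : ∀ᶠ N : ℕ in (hyperfilter ℕ : Filter ℕ), i < N := by
  have h1 : ∀ᶠ N : ℕ in Filter.atTop, i < N := Filter.eventually_gt_atTop i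
  have h2 : (hyperfilter ℕ : Filter ℕ) ≤ Filter.atTop := by
    have := Nat.hyperfilter_le_atTop
    exact this
  exact h2 h1

theorem main_aux (h : ∀ N, f 4 (HN N) 2 1 = 0) : False := by
  classical
  choose D c hc using fun N => missing (h N)
  let cc : ℕ → ℕ → ℕ → Finset (Fin 4) := fun i j N =>
    if h : i < N ∧ j < N then c N {(⟨i, h.1⟩ : Fin N), (⟨j, h.2⟩ : Fin N)} else ∅
  choose L hL using fun i j => ult_lim (cc i j)
  obtain ⟨g, hg⟩ := exists_isLim 6 (fun u v => L (enc u) (enc v))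
  -- the pattern
  have hpat : ∀ y x : Fin 6, y < x → g y ≠ g x ∧ g y ≠ (g x)ᶜ := by
    intro y x hyx
    obtain ⟨u, v, w, z, e1, e2, e3, e4, e5, e6, k1, k2, k3, k4, k5, k6⟩ :=
      pattern 6 _ g hg y x hyx
    have E1 := (((hL (enc u) (enc v)).and (hL (enc w) (enc z))).and
      ((hL (enc u) (enc w)).and (hL (enc u) (enc z)))).and
      ((hL (enc v) (enc w)).and (hL (enc v) (enc z)))
    have E2 := ((ev_gt (enc u)).and (ev_gt (enc v))).and ((ev_gt (enc w)).and (ev_gt (enc z)))
    obtain ⟨N, ⟨⟨⟨l1, l2⟩, l3, l4⟩, l5, l6⟩, ⟨n1, n2⟩, n3, n4⟩ := (E1.and E2).exists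
    have hne : ∀ (p q : T 6) (hp : enc p < N) (hq : enc q < N) (x : ℕ), dif p q x →
        (⟨enc p, hp⟩ : Fin N) ≠ ⟨enc q, hq⟩ := by
      intro p q hp hq x hd hh
      exact enc_inj (dif_ne _ _ _ hd) (congrArg Fin.val hh)
    have hcc : ∀ (i j : ℕ) (hi : i < N) (hj : j < N),
        cc i j N = c N {(⟨i, hi⟩ : Fin N), (⟨j, hj⟩ : Fin N)} := by
      intro i j hi hj
      simp only [cc]
      rw [dif_pos ⟨hi, hj⟩]
    have obs := fun hPQ => local_obs' (D N) (c N) (hc N) ⟨enc u, n1⟩ ⟨enc v, n2⟩ ⟨enc w, n3⟩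
      ⟨enc z, n4⟩ (hne u v n1 n2 _ e1) (hne w z n3 n4 _ e2) (hne u w n1 n3 _ e3)
      (hne u z n1 n4 _ e4) (hne v w n2 n3 _ e5) (hne v z n2 n4 _ e6) x y (ne_of_gt hyx)
      (chi_enc u v x e1) (chi_enc u w y e3) (g x) (g y) hPQ
      ((hcc _ _ n1 n2).symm.trans (l1.trans k1)) ((hcc _ _ n3 n4).symm.trans (l2.trans k2))
      ((hcc _ _ n1 n3).symm.trans (l3.trans k3)) ((hcc _ _ n1 n4).symm.trans (l4.trans k4))
      ((hcc _ _ n2 n3).symm.trans (l5.trans k5)) ((hcc _ _ n2 n4).symm.trans (l6.trans k6))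
    exact ⟨fun h1 => obs (Or.inl h1), fun h1 => obs (Or.inr h1)⟩
  -- cardinalities
  have hcard : ∀ x : Fin 6, (g x).card = 2 := by
    intro x
    have htriv : W 6 (fun _ => True) := by
      have : ∀ e : ℕ, W e (fun _ => True) := by
        intro e
        induction e with
        | zero => exact trivial
        | succ e ih => exact Filter.Eventually.of_forall fun _ => ih
      exact this 6
    obtain ⟨u, v, e1, k1, -, -⟩ := pair 6 _ g hg x (fun _ => True) htriv
    obtain ⟨N, l1, n1, n2⟩ := ((hL (enc u) (enc v)).and ((ev_gt (enc u)).and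
      (ev_gt (enc v)))).exists
    have hne : (⟨enc u, n1⟩ : Fin N) ≠ ⟨enc v, n2⟩ := by
      intro hh
      exact enc_inj (dif_ne _ _ _ e1) (congrArg Fin.val hh)
    have h1 := (hc N _ (Finset.card_pair hne)).1
    have h2 : cc (enc u) (enc v) N = c N {(⟨enc u, n1⟩ : Fin N), (⟨enc v, n2⟩ : Fin N)} := by
      simp only [cc]
      rw [dif_pos ⟨n1, n2⟩]
    rw [← k1, ← l1, h2]
    exact h1
  -- counting
  have hinj : Function.Injective g := by
    intro x y hxy
    by_contra hne
    rcases lt_or_gt_of_ne hne with h1 | h1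
    · exact (hpat x y h1).1 hxy
    · exact (hpat y x h1).1 hxy.symm
  have himg : Finset.image g Finset.univ =
      Finset.powersetCard 2 (Finset.univ : Finset (Fin 4)) := by
    apply Finset.eq_of_subset_of_card_le
    · intro P hP
      obtain ⟨x, -, rfl⟩ := Finset.mem_image.1 hP
      exact Finset.mem_powersetCard.2 ⟨Finset.subset_univ _, hcard x⟩
    · rw [Finset.card_image_of_injective _ hinj]
      simp
      decide
  have hmem : (g 0)ᶜ ∈ Finset.image g Finset.univ := by
    rw [himg, Finset.mem_powersetCard]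
    refine ⟨Finset.subset_univ _, ?_⟩
    rw [Finset.card_compl, hcard 0]
    rfl
  obtain ⟨y, -, hy⟩ := Finset.mem_image.1 hmem
  have hy0 : y ≠ 0 := by
    rintro rfl
    have hne : (g 0).Nonempty := by
      rw [← Finset.card_pos, hcard 0]
      norm_num
    obtain ⟨t, ht⟩ := hne
    have : t ∈ (g 0)ᶜ := by rw [← hy]; exact ht
    exact (Finset.mem_compl.1 this) ht
  have h0y : (0 : Fin 6) < y := Fin.pos_of_ne_zero hy0
  apply (hpat 0 y h0y).2
  rw [hy, compl_compl]

/-- The identity `f(H,p,1) + b(H,p) = C(n,p)` fails, already for `r = 4` and `p = 2`. -/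
theorem result :
    (∃ (n : ℕ) (H : Finset (Finset (Fin n))), Uniform 4 H ∧ b 4 H 2 = n.choose 2 ∧
      0 < f 4 H 2 1) ∧
    ¬ (∀ r p : ℕ, 2 ≤ r → 2 ≤ p → p ≤ r → ∀ (n : ℕ) (H : Finset (Finset (Fin n))),
      Uniform r H → (f r H p 1 : ℤ) = (n.choose p : ℤ) - (b r H p : ℤ)) := by
  have h1 : ∃ (n : ℕ) (H : Finset (Finset (Fin n))), Uniform 4 H ∧ b 4 H 2 = n.choose 2 ∧
      0 < f 4 H 2 1 := by
    by_contra hcon
    push Not at hcon
    apply main_aux
    intro N
    have := hcon N (HN N) (HN_unif N) (b_HN N)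
    omega
  refine ⟨h1, ?_⟩
  intro hall
  obtain ⟨n, H, hH, hb, hf⟩ := h1
  have := hall 4 2 (by norm_num) (by norm_num) (by norm_num) n H hH
  rw [hb] at this
  omega

end Pool.Agent.Results.MP_721462_co.TreeCE
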